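import Pool.Agent.H65.AD.TargetsC

/-!
# The terms outside the range
-/

set_option autoImplicit false

open MeasureTheory Set Filter
open scoped Real

namespace Pool.Agent.H91.ADM

open Pool.Agent.H31.CN Pool.Agent.H95.AD Pool.Agent.H50.CN Pool.Agent.H65.AD

/-- cubes against exponentials -/
theorem cube_exp (X x : ℝ) (hX : 0 < X) (hx : 0 < x) :
    x ^ 3 * Real.exp (-(x / X)) ≤ 120 * X ^ 5 / x ^ 2 := by
  have h1 : (x / X) ^ 5 / (Nat.factorial 5 : ℝ) ≤ Real.exp (x / X) :=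
    Real.pow_div_factorial_le_exp _ (by positivity) 5
  have h2 : (Nat.factorial 5 : ℝ) = 120 := by norm_num [Nat.factorial]
  rw [h2, div_le_iff₀ (by norm_num), div_pow, div_le_iff₀ (by positivity)] at h1
  rw [Real.exp_neg, le_div_iff₀ (by positivity)]
  rw [show x ^ 3 * (Real.exp (x / X))⁻¹ * x ^ 2 = x ^ 5 / Real.exp (x / X) by
    field_simp]
  rw [div_le_iff₀ (Real.exp_pos _)]
  linarith

/-- The bound for one term. -/
theorem term_bd (C X W u z : ℝ) (n e A : ℕ) (F : ℝ) (hC : 0 < C) (hX : 1 ≤ X) (hu1 : 1 ≤ u)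
    (hu : u ≤ X) (he : 1 ≤ e) (hA : 1 ≤ A)
    (hz : z = (e : ℝ) ^ 2 * A / ((n : ℝ) * Real.sqrt u)) (hV : |Vk z| ≤ C * Real.exp (-(6 * z)))
    (hz1 : W ≤ z) (hz2 : (e : ℝ) ^ 2 * A / X ≤ z)
    (hF : |F| ≤ X ^ 10 * ((e : ℝ) * A) ^ 3) :
    |kM u n e A * F| ≤ C * (2 + |c0|) * 14400 * X ^ 21 * Real.exp (-(3 * W)) *
      (1 / (e : ℝ) ^ 2 * (1 / (A : ℝ) ^ 2)) := by
  have he' : (1 : ℝ) ≤ e := by exact_mod_cast he
  have hA' : (1 : ℝ) ≤ A := by exact_mod_cast hA
  have he0 : (0 : ℝ) < e := by linarith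
  have hA0 : (0 : ℝ) < A := by linarith
  have hX0 : 0 < X := by linarith
  have hkM : kM u n e A = Vk z / ((e : ℝ) * A) * (Real.log (Real.sqrt u) - Real.log A + c0) := by
    unfold kM
    rw [← hz]
  -- the logarithms
  have hlog : |Real.log (Real.sqrt u) - Real.log A + c0| ≤ (2 + |c0|) * (X * A) := by
    have h1 : Real.log (Real.sqrt u) ≤ X := by
      have h2 : Real.sqrt u ≤ X := by
        rw [Real.sqrt_le_left (by linarith)]
        nlinarith
      have h3 : 0 < Real.sqrt u := Real.sqrt_pos.mpr (by linarith)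
      exact (Real.log_le_sub_one_of_pos h3).trans (by linarith)
    have h2 : 0 ≤ Real.log (Real.sqrt u) := Real.log_nonneg (by
      rw [Real.one_le_sqrt]
      exact hu1)
    have h3 : Real.log A ≤ A := (Real.log_le_sub_one_of_pos hA0).trans (by linarith)
    have h4 : 0 ≤ Real.log A := Real.log_nonneg hA'
    have h5 : |Real.log (Real.sqrt u) - Real.log A + c0| ≤ X + A + |c0| := by
      refine (abs_add_le _ _).trans (add_le_add_left ?_ _)
      rw [abs_le]
      constructor <;> linarith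
    have h6 : 1 ≤ X * A := by nlinarith
    have h7 : X ≤ X * A := by nlinarith
    have h8 : (A : ℝ) ≤ X * A := by nlinarith
    have h9 := abs_nonneg c0
    nlinarith
  -- the exponential
  have hexp : Real.exp (-(6 * z)) ≤ Real.exp (-(3 * W)) * (Real.exp (-((e : ℝ) / X)) *
      Real.exp (-((A : ℝ) / X))) := by
    rw [← Real.exp_add, ← Real.exp_add, Real.exp_le_exp]
    have h1 : (e : ℝ) / X + A / X ≤ 2 * ((e : ℝ) ^ 2 * A / X) := by
      rw [← add_div, ← mul_div_assoc]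
      refine div_le_div_of_nonneg_right ?_ hX0.le
      have : (e : ℝ) ≤ e ^ 2 * A := by nlinarith [mul_nonneg he0.le (sub_nonneg.mpr he')]
      have : (A : ℝ) ≤ e ^ 2 * A := by nlinarith [mul_nonneg he0.le (sub_nonneg.mpr he')]
      linarith
    have h2 : 0 ≤ (e : ℝ) ^ 2 * A / X := by positivity
    linarith
  have h1 := cube_exp X e hX0 he0
  have h2 := cube_exp X A hX0 hA0
  have hE1 : 0 ≤ (e : ℝ) ^ 3 * Real.exp (-((e : ℝ) / X)) := by positivity
  have hE2 : 0 ≤ (A : ℝ) ^ 3 * Real.exp (-((A : ℝ) / X)) := by positivity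
  have h3 : ((e : ℝ) ^ 3 * Real.exp (-((e : ℝ) / X))) * ((A : ℝ) ^ 3 * Real.exp (-((A : ℝ) / X))) ≤
      (120 * X ^ 5 / (e : ℝ) ^ 2) * (120 * X ^ 5 / (A : ℝ) ^ 2) :=
    mul_le_mul h1 h2 hE2 (by positivity)
  rw [hkM, abs_mul, abs_mul, abs_div, abs_of_pos (show (0 : ℝ) < (e : ℝ) * A by positivity)]
  calc |Vk z| / ((e : ℝ) * A) * |Real.log (Real.sqrt u) - Real.log A + c0| * |F|
      ≤ (C * (Real.exp (-(3 * W)) * (Real.exp (-((e : ℝ) / X)) * Real.exp (-((A : ℝ) / X))))) /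
          ((e : ℝ) * A) * ((2 + |c0|) * (X * A)) * (X ^ 10 * ((e : ℝ) * A) ^ 3) := by
        refine mul_le_mul (mul_le_mul ?_ hlog (abs_nonneg _) (by positivity)) hF (abs_nonneg _)
          (by positivity)
        refine div_le_div_of_nonneg_right (hV.trans ?_) (by positivity)
        exact mul_le_mul_of_nonneg_left hexp hC.le
    _ = C * (2 + |c0|) * X ^ 11 * Real.exp (-(3 * W)) * (1 / e) *
          (((e : ℝ) ^ 3 * Real.exp (-((e : ℝ) / X))) *
            ((A : ℝ) ^ 3 * Real.exp (-((A : ℝ) / X)))) := by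
        field_simp
    _ ≤ C * (2 + |c0|) * X ^ 11 * Real.exp (-(3 * W)) * 1 *
          ((120 * X ^ 5 / (e : ℝ) ^ 2) * (120 * X ^ 5 / (A : ℝ) ^ 2)) := by
        refine mul_le_mul ?_ h3 (mul_nonneg hE1 hE2) (by positivity)
        refine mul_le_mul_of_nonneg_left ?_ (by positivity)
        rw [div_le_one he0]
        exact he'
    _ = _ := by
        field_simp
        ring

/-- **Row KTL.** -/
theorem pf_KTL (hVK : T_VK) : T_KTL := by
  classical
  intro N θ δ η hN hθ hδ hθδ hη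
  obtain ⟨C, hC, hV, _⟩ := hVK
  -- the constant of the double sum
  have hs2 : Summable (fun n : ℕ => 1 / (n : ℝ) ^ 2) := by
    exact Real.summable_one_div_nat_pow.mpr (by norm_num)
  have hZ : Summable (fun y : ℕ × ℕ => 1 / (y.1 : ℝ) ^ 2 * (1 / (y.2 : ℝ) ^ 2)) :=
    hs2.mul_of_nonneg hs2 (fun n => by positivity) (fun n => by positivity)
  set Z : ℝ := ∑' y : ℕ × ℕ, 1 / (y.1 : ℝ) ^ 2 * (1 / (y.2 : ℝ) ^ 2) with hZd
  have hZ0 : 0 ≤ Z := tsum_nonneg (fun y => by positivity)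
  set K : ℝ := C * (2 + |c0|) * 14400 with hK
  have hK0 : 0 < K := by positivity
  have hN' : (1 : ℝ) ≤ N := by exact_mod_cast hN
  -- large X
  have l1 : ∀ᶠ X : ℝ in atTop, (N : ℝ) ^ 2 ≤ X ^ (1 / 2 - 2 * θ - δ) :=
    (tendsto_rpow_atTop (by linarith)).eventually (eventually_ge_atTop _)
  have l2 : ∀ᶠ X : ℝ in atTop, 1 ≤ η * X :=
    (Filter.Tendsto.const_mul_atTop hη tendsto_id).eventually (eventually_ge_atTop _)
  have l3 : Tendsto (fun X : ℝ => (X ^ δ) ^ (31 / δ) * Real.exp (-3 * X ^ δ)) atTop (nhds 0) :=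
    (tendsto_rpow_mul_exp_neg_mul_atTop_nhds_zero (31 / δ) 3 (by norm_num)).comp
      (tendsto_rpow_atTop hδ)
  have l4 : ∀ᶠ X : ℝ in atTop, (X ^ δ) ^ (31 / δ) * Real.exp (-3 * X ^ δ) ≤ 1 / (K * Z + 1) :=
    l3.eventually (ge_mem_nhds (by positivity))
  obtain ⟨X₀, hX₀⟩ := Filter.eventually_atTop.1
    (l1.and (l2.and (l4.and (eventually_ge_atTop (1 : ℝ)))))
  refine ⟨X₀, fun X hX u n hu1 hu hn hn2 f hf S hS => ?_⟩
  obtain ⟨g1, g2, g3, g4⟩ := hX₀ X hX
  have hX0 : 0 < X := by linarith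
  have hu0 : 1 ≤ u := g2.trans hu1
  have hn' : (1 : ℝ) ≤ n := by exact_mod_cast hn
  have hsq : 1 ≤ Real.sqrt u := by
    rw [Real.one_le_sqrt]
    exact hu0
  have hsq2 : Real.sqrt u ≤ X ^ (1 / 2 : ℝ) := by
    rw [← Real.sqrt_eq_rpow]
    exact Real.sqrt_le_sqrt hu
  -- the sum over the complement
  set F : ℕ × ℕ → ℝ := fun y => kM u n y.1 y.2 * f y.1 y.2 with hF
  have hB : HasSum (fun y => if y ∈ Bx X δ n then F y else 0) (∑ y ∈ Bx X δ n, F y) := by
    have h1 : HasSum (fun y => if y ∈ Bx X δ n then F y else 0)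
        (∑ y ∈ Bx X δ n, (if y ∈ Bx X δ n then F y else 0)) :=
      hasSum_sum_of_ne_finset_zero (fun y hy => if_neg hy)
    have h2 : ∑ y ∈ Bx X δ n, (if y ∈ Bx X δ n then F y else 0) = ∑ y ∈ Bx X δ n, F y :=
      Finset.sum_congr rfl (fun y hy => if_pos hy)
    rw [h2] at h1
    exact h1
  have hD := hS.sub hB
  have hG := hZ.hasSum.mul_left (K * X ^ 21 * Real.exp (-(3 * X ^ δ)))
  have hmain := hD.norm_le_of_bounded hG (by
    rintro ⟨e, A⟩
    show ‖F (e, A) - (if (e, A) ∈ Bx X δ n then F (e, A) else 0)‖ ≤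
      K * X ^ 21 * Real.exp (-(3 * X ^ δ)) * (1 / (e : ℝ) ^ 2 * (1 / (A : ℝ) ^ 2))
    by_cases hy : (e, A) ∈ Bx X δ n
    · rw [if_pos hy, sub_self, norm_zero]
      positivity
    · rw [if_neg hy, sub_zero, Real.norm_eq_abs]
      rcases Nat.eq_zero_or_pos e with he | he
      · subst he
        have h1 : F (0, A) = 0 := by
          show kM u n 0 A * _ = 0
          unfold kM
          rw [Nat.cast_zero, zero_mul, div_zero, zero_mul, zero_mul]
        rw [h1, abs_zero]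
        positivity
      rcases Nat.eq_zero_or_pos A with hA | hA
      · subst hA
        have h1 : F (e, 0) = 0 := by
          show kM u n e 0 * _ = 0
          unfold kM
          rw [Nat.cast_zero, mul_zero, mul_zero, div_zero, zero_mul, zero_mul]
        rw [h1, abs_zero]
        positivity
      have he' : (1 : ℝ) ≤ e := by exact_mod_cast he
      have hA' : (1 : ℝ) ≤ A := by exact_mod_cast hA
      have he0 : (0 : ℝ) < e := by linarith
      have hA0 : (0 : ℝ) < A := by linarith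
      have hup : (n : ℝ) * X ^ (1 / 2 + δ) ≤ X := by
        calc (n : ℝ) * X ^ (1 / 2 + δ) ≤ ((N : ℝ) ^ 2 * X ^ (2 * θ)) * X ^ (1 / 2 + δ) :=
              mul_le_mul_of_nonneg_right hn2 (by positivity)
          _ ≤ (X ^ (1 / 2 - 2 * θ - δ) * X ^ (2 * θ)) * X ^ (1 / 2 + δ) := by
              refine mul_le_mul_of_nonneg_right ?_ (by positivity)
              exact mul_le_mul_of_nonneg_right g1 (by positivity)
          _ = X := by
              rw [← Real.rpow_add hX0, ← Real.rpow_add hX0,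
                show 1 / 2 - 2 * θ - δ + 2 * θ + (1 / 2 + δ) = 1 by ring, Real.rpow_one]
      have hbig : (n : ℝ) * X ^ (1 / 2 + δ) < (e : ℝ) ^ 2 * A := by
        by_contra hcon
        push Not at hcon
        apply hy
        unfold Bx
        rw [Finset.mem_filter, Finset.mem_product, Finset.mem_Icc, Finset.mem_Icc]
        have h1 : (e : ℝ) ≤ (e : ℝ) ^ 2 * A := by
          nlinarith [mul_nonneg he0.le (sub_nonneg.mpr he')]
        have h2 : (A : ℝ) ≤ (e : ℝ) ^ 2 * A := by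
          nlinarith [mul_nonneg he0.le (sub_nonneg.mpr he')]
        exact ⟨⟨⟨he, Nat.le_floor (by linarith)⟩, ⟨hA, Nat.le_floor (by linarith)⟩⟩, hcon⟩
      have hnu : 0 < (n : ℝ) * Real.sqrt u := by positivity
      have hz0 : (n : ℝ) * Real.sqrt u ≤ (n : ℝ) * X ^ (1 / 2 : ℝ) :=
        mul_le_mul_of_nonneg_left hsq2 (by linarith)
      have hz1 : X ^ δ ≤ (e : ℝ) ^ 2 * A / ((n : ℝ) * Real.sqrt u) := by
        rw [le_div_iff₀ hnu]
        calc X ^ δ * ((n : ℝ) * Real.sqrt u) ≤ X ^ δ * ((n : ℝ) * X ^ (1 / 2 : ℝ)) :=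
              mul_le_mul_of_nonneg_left hz0 (by positivity)
          _ = (n : ℝ) * X ^ (1 / 2 + δ) := by
              rw [Real.rpow_add hX0]
              ring
          _ ≤ (e : ℝ) ^ 2 * A := hbig.le
      have hz2 : (e : ℝ) ^ 2 * A / X ≤ (e : ℝ) ^ 2 * A / ((n : ℝ) * Real.sqrt u) := by
        refine div_le_div_of_nonneg_left (by positivity) hnu ?_
        refine hz0.trans (le_trans ?_ hup)
        refine mul_le_mul_of_nonneg_left ?_ (by linarith)
        exact Real.rpow_le_rpow_of_exponent_le g4 (by linarith)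
      have hz3 : 0 < (e : ℝ) ^ 2 * A / ((n : ℝ) * Real.sqrt u) := by positivity
      have h10 : X ^ (10 : ℝ) = X ^ 10 := by
        rw [← Real.rpow_natCast]
        norm_num
      have hf' := hf e A he hA
      rw [h10] at hf'
      exact term_bd C X (X ^ δ) u _ n e A (f e A) hC g4 hu0 hu he hA rfl (hV _ hz3) hz1 hz2 hf')
  rw [Real.norm_eq_abs] at hmain
  refine hmain.trans ?_
  -- the final comparison
  have h31 : (X ^ δ) ^ (31 / δ) = X ^ 31 := by
    rw [← Real.rpow_mul hX0.le, mul_div_cancel₀ _ hδ.ne', ← Real.rpow_natCast]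
    norm_num
  rw [h31, neg_mul] at g3
  have h10 : X ^ (-10 : ℝ) = 1 / X ^ 10 := by
    rw [Real.rpow_neg hX0.le, ← Real.rpow_natCast, one_div]
    norm_num
  rw [h10, le_div_iff₀ (by positivity)]
  have hE := Real.exp_pos (-(3 * X ^ δ))
  rw [le_div_iff₀ (by positivity)] at g3
  calc K * X ^ 21 * Real.exp (-(3 * X ^ δ)) * Z * X ^ 10
      = X ^ 31 * Real.exp (-(3 * X ^ δ)) * (K * Z) := by ring
    _ ≤ X ^ 31 * Real.exp (-(3 * X ^ δ)) * (K * Z + 1) :=
        mul_le_mul_of_nonneg_left (by linarith) (by positivity)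
    _ ≤ 1 := g3

end Pool.Agent.H91.ADM
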