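import Pool.Agent.H65.AD.TargetsC

/-!
# The main part is nearly constant
-/

set_option autoImplicit false

open MeasureTheory Set Filter
open scoped Real

namespace Pool.Agent.H91.ADM

open Pool.Agent.H31.CN Pool.Agent.H95.AD Pool.Agent.H50.CN Pool.Agent.H65.AD

theorem two_dvd_primorial {R : ℕ} (hR : 2 ≤ R) : 2 ∣ primorial R := by
  unfold primorial
  exact Finset.dvd_prod_of_mem (fun p => p)
    (Finset.mem_filter.2 ⟨Finset.mem_range.2 (by omega), Nat.prime_two⟩)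

theorem sqf_primorial (R : ℕ) : Squarefree (primorial R) := by
  unfold primorial
  refine Finset.squarefree_prod_of_pairwise_isCoprime ?_ ?_
  · intro p hp q hq hpq
    show IsRelPrime p q
    rw [← Nat.coprime_iff_isRelPrime]
    exact (Nat.coprime_primes (Finset.mem_filter.1 hp).2 (Finset.mem_filter.1 hq).2).2 hpq
  · intro p hp
    exact (Finset.mem_filter.1 hp).2.squarefree

/-- The limit of the singular factor. -/
theorem lim_R (K ε : ℝ) (hK : 0 < K) (hε : 0 < ε) : ∃ R₀ : ℕ, ∀ R : ℕ, R₀ ≤ R →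
    K * (1 + Real.log R) ^ 2 * (R : ℝ) ^ (-(1 / 2) : ℝ) ≤ ε := by
  have hlim : Tendsto (fun X : ℝ => X ^ (-(1 / 4) : ℝ)) atTop (nhds 0) :=
    tendsto_rpow_neg_atTop (by norm_num)
  obtain ⟨X₀, hX₀⟩ := Filter.eventually_atTop.1
    (hlim.eventually (gt_mem_nhds (show (0 : ℝ) < ε / (81 * K) by positivity)))
  refine ⟨⌈max X₀ 1⌉₊, fun R hR => ?_⟩
  have hR1 : max X₀ 1 ≤ (R : ℝ) := (Nat.le_ceil _).trans (by exact_mod_cast hR)
  have hR2 : (1 : ℝ) ≤ R := (le_max_right _ _).trans hR1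
  have hR0 : (0 : ℝ) < R := by linarith
  have h1 := (hX₀ R ((le_max_left _ _).trans hR1)).le
  have h2 : Real.log R ≤ (R : ℝ) ^ (1 / 8 : ℝ) / (1 / 8) :=
    Real.log_le_rpow_div hR0.le (by norm_num)
  have h3 : (1 : ℝ) ≤ (R : ℝ) ^ (1 / 8 : ℝ) := Real.one_le_rpow hR2 (by norm_num)
  have h4 : 1 + Real.log R ≤ 9 * (R : ℝ) ^ (1 / 8 : ℝ) := by
    have : (R : ℝ) ^ (1 / 8 : ℝ) / (1 / 8) = 8 * (R : ℝ) ^ (1 / 8 : ℝ) := by ring
    linarith
  have h5 : 0 ≤ 1 + Real.log R := by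
    have := Real.log_nonneg hR2
    linarith
  have h6 : (1 + Real.log R) ^ 2 ≤ 81 * (R : ℝ) ^ (1 / 4 : ℝ) := by
    calc (1 + Real.log R) ^ 2 ≤ (9 * (R : ℝ) ^ (1 / 8 : ℝ)) ^ 2 := pow_le_pow_left₀ h5 h4 2
      _ = 81 * ((R : ℝ) ^ (1 / 8 : ℝ)) ^ 2 := by ring
      _ = 81 * (R : ℝ) ^ (1 / 4 : ℝ) := by
        rw [← Real.rpow_natCast ((R : ℝ) ^ (1 / 8 : ℝ)) 2, ← Real.rpow_mul hR0.le]
        norm_num
  calc K * (1 + Real.log R) ^ 2 * (R : ℝ) ^ (-(1 / 2) : ℝ)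
      ≤ K * (81 * (R : ℝ) ^ (1 / 4 : ℝ)) * (R : ℝ) ^ (-(1 / 2) : ℝ) := by
        refine mul_le_mul_of_nonneg_right (mul_le_mul_of_nonneg_left h6 hK.le) (by positivity)
    _ = 81 * K * (R : ℝ) ^ (-(1 / 4) : ℝ) := by
        rw [show (-(1 / 4) : ℝ) = 1 / 4 + -(1 / 2) by norm_num, Real.rpow_add hR0]
        ring
    _ ≤ 81 * K * (ε / (81 * K)) := mul_le_mul_of_nonneg_left h1 (by positivity)
    _ = ε := by field_simp

/-- **Row MNM.** -/
theorem pf_MNM (hDCM : T_DCM) (hTLB : T_TLB) (hSMP : T_SMP) : T_MNM := by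
  intro P θ hP hθ hθ2 ε hε
  obtain ⟨K, hK, hK2⟩ := hSMP P θ hP hθ (by linarith)
  obtain ⟨R₀, hR₀⟩ := lim_R K (ε / 12) hK (by positivity)
  refine ⟨max R₀ 2, fun R hR η hη hη2 => ?_⟩
  have h2R : 2 ≤ R := (le_max_right _ _).trans hR
  have hRR := hR₀ R ((le_max_left _ _).trans hR)
  set N := primorial R with hN
  set δ : ℝ := (1 / 2 - 4 * θ) / 2 with hδ
  have hδ0 : 0 < δ := by rw [hδ]; linarith
  have hδ1 : 4 * θ + δ < 1 / 2 := by rw [hδ]; linarith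
  have hN1 : 1 ≤ N := primorial_pos R
  have hN2 : 2 ∣ N := two_dvd_primorial h2R
  have hN3 : Squarefree N := sqf_primorial R
  obtain ⟨X₁, hX₁⟩ := hK2 R h2R η (ε / 12) hη hη2 (by positivity)
  obtain ⟨X₂, hX₂⟩ := hTLB P N θ δ η hN1 hN2 hN3 hθ hδ0 hδ1 hη
  obtain ⟨X₃, hX₃⟩ := hDCM P N θ δ η hN1 hN2 hN3 hθ hδ0 hδ1 hη
  obtain ⟨X₄, hX₄⟩ := Filter.eventually_atTop.1
    (Real.tendsto_log_atTop.eventually (eventually_ge_atTop (12 / ε)))
  refine ⟨max (max X₁ X₂) (max (max X₃ X₄) (max (12 / ε) 2)), fun X hX => ?_⟩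
  have hX1 : X₁ ≤ X := ((le_max_left _ _).trans (le_max_left _ _)).trans hX
  have hX2 : X₂ ≤ X := ((le_max_right _ _).trans (le_max_left _ _)).trans hX
  have hX34 : max X₃ X₄ ≤ X := ((le_max_left _ _).trans (le_max_right _ _)).trans hX
  have hX56 : max (12 / ε) 2 ≤ X := ((le_max_right _ _).trans (le_max_right _ _)).trans hX
  have hX3 := (le_max_left _ _).trans hX34
  have hX4 := (le_max_right _ _).trans hX34
  have hX5 := (le_max_left _ _).trans hX56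
  have hX6 := (le_max_right _ _).trans hX56
  have hX0 : 0 < X := by linarith
  have e1 := hX₁ X hX1
  have e2 := hX₂ X hX2
  have e3 := hX₃ X hX3
  have e4 := hX₄ X hX4
  have hcard : ((faE η X).card : ℝ) ≤ X := by
    have h1 : (faE η X).card ≤ ⌊X⌋₊ := by
      unfold faE fam
      refine (Finset.card_filter_le _ _).trans ((Finset.card_filter_le _ _).trans ?_)
      rw [Nat.card_Icc]
      omega
    exact (Nat.cast_le.mpr h1).trans (Nat.floor_le hX0.le)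
  have key : ∀ D ∈ faE η X, (MD P (X ^ θ) N D -
      rho N * Ph (Real.log (Real.sqrt X)) (GS P (X ^ θ) N 1 1)) ^ 2 ≤
      3 * (Sm P (X ^ θ) N (Real.log X ^ (200 : ℝ)) D -
          rho N * Ph (Real.log (Real.sqrt X)) (GS P (X ^ θ) N 1 1)) ^ 2 +
      3 * (TF P (X ^ θ) N X δ ⌊(N : ℝ) ^ 2 * X ^ (1 / 2 + 4 * θ + δ)⌋₊
      (Real.log X ^ (200 : ℝ)) (fun p => chi p D) (kM D) D) ^ 2 + 3 * (X ^ (-1 : ℝ)) ^ 2 := by
    intro D hD
    have h1 := e3 D hD
    have h2 : (MD P (X ^ θ) N D - Sm P (X ^ θ) N (Real.log X ^ (200 : ℝ)) D -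
      TF P (X ^ θ) N X δ ⌊(N : ℝ) ^ 2 * X ^ (1 / 2 + 4 * θ + δ)⌋₊
      (Real.log X ^ (200 : ℝ)) (fun p => chi p D) (kM D) D) ^ 2 ≤ (X ^ (-1 : ℝ)) ^ 2 := by
      rw [← sq_abs]
      exact pow_le_pow_left₀ (abs_nonneg _) h1 2
    generalize MD P (X ^ θ) N D = a at *
    generalize Sm P (X ^ θ) N (Real.log X ^ (200 : ℝ)) D = b at *
    generalize TF P (X ^ θ) N X δ ⌊(N : ℝ) ^ 2 * X ^ (1 / 2 + 4 * θ + δ)⌋₊
      (Real.log X ^ (200 : ℝ)) (fun p => chi p D) (kM D) D = t at *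
    generalize rho N * Ph (Real.log (Real.sqrt X)) (GS P (X ^ θ) N 1 1) = r at *
    nlinarith [sq_nonneg ((b - r) - t), sq_nonneg ((b - r) - (a - b - t)),
      sq_nonneg (t - (a - b - t))]
  calc _ ≤ ∑ D ∈ faE η X, (3 * (Sm P (X ^ θ) N (Real.log X ^ (200 : ℝ)) D -
          rho N * Ph (Real.log (Real.sqrt X)) (GS P (X ^ θ) N 1 1)) ^ 2 +
      3 * (TF P (X ^ θ) N X δ ⌊(N : ℝ) ^ 2 * X ^ (1 / 2 + 4 * θ + δ)⌋₊
      (Real.log X ^ (200 : ℝ)) (fun p => chi p D) (kM D) D) ^ 2 + 3 * (X ^ (-1 : ℝ)) ^ 2) :=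
        Finset.sum_le_sum key
    _ ≤ 3 * ((ε / 12 + ε / 12) * X) + 3 * (X / Real.log X) + X * (3 * (X ^ (-1 : ℝ)) ^ 2) := by
        rw [Finset.sum_add_distrib, Finset.sum_add_distrib, ← Finset.mul_sum, ← Finset.mul_sum,
          Finset.sum_const, nsmul_eq_mul]
        refine add_le_add (add_le_add ?_ ?_) ?_
        · refine mul_le_mul_of_nonneg_left (e1.trans ?_) (by norm_num)
          exact mul_le_mul_of_nonneg_right (by linarith) hX0.le
        · exact mul_le_mul_of_nonneg_left e2 (by norm_num)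
        · exact mul_le_mul_of_nonneg_right hcard (by positivity)
    _ ≤ ε * X := by
        have hlog : 0 < Real.log X := lt_of_lt_of_le (by positivity) e4
        have h1 : X / Real.log X ≤ ε / 12 * X := by
          rw [div_le_iff₀ hlog]
          have : 1 ≤ ε / 12 * Real.log X := by
            rw [div_le_iff₀ hε] at e4
            linarith
          nlinarith
        have h2 : X * (3 * (X ^ (-1 : ℝ)) ^ 2) = 3 / X := by
          rw [Real.rpow_neg_one]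
          field_simp
        have h3 : 3 / X ≤ ε / 4 * X := by
          rw [div_le_iff₀ hX0]
          rw [div_le_iff₀ hε] at hX5
          nlinarith
        rw [h2]
        linarith

end Pool.Agent.H91.ADM
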